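import Mathlib
import Pool.Agent.W593.IR.Stm
import Pool.Agent.W890.SF.R3

set_option autoImplicit false

namespace Pool.Agent.W198.IR.Limf

open Finset Filter Topology Pool.Agent.W890.SF Pool.Agent.W593.IR

/-- edges of size `k` inside `T` -/
theorem frac_le {n k : ℕ} (H : Finset (Finset (Fin n))) (T : Finset (Fin n))
    (hc : ∀ e ∈ H, e.card = k) (hT : ∀ e ∈ H, e ⊆ T) (w : Finset (Fin n) → ℝ)
    (hl : ∀ v : Fin n, ∑ e ∈ H.filter (fun e => v ∈ e), w e ≤ 1) :
    (k : ℝ) * ∑ e ∈ H, w e ≤ T.card := by
  classical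
  have h1 : (k : ℝ) * ∑ e ∈ H, w e = ∑ e ∈ H, ∑ v ∈ T, if v ∈ e then w e else 0 := by
    rw [Finset.mul_sum]
    refine Finset.sum_congr rfl (fun e he => ?_)
    rw [← Finset.sum_filter, Finset.sum_const, nsmul_eq_mul]
    have : T.filter (fun v => v ∈ e) = e := by
      ext v
      rw [mem_filter]
      exact ⟨fun h => h.2, fun h => ⟨hT e he h, h⟩⟩
    rw [this, hc e he]
  rw [h1, Finset.sum_comm]
  calc ∑ v ∈ T, ∑ e ∈ H, (if v ∈ e then w e else 0) ≤ ∑ v ∈ T, (1 : ℝ) := by
        apply Finset.sum_le_sum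
        intro v _
        rw [← Finset.sum_filter]
        exact hl v
    _ = T.card := by simp

theorem ev_lower {f : ℕ → ℕ} {k : ℕ} {L : ℝ}
    (h : Tendsto (fun n : ℕ => (f n : ℝ) / ((n.choose k : ℕ) : ℝ)) atTop (𝓝 L)) {ε : ℝ}
    (hε : 0 < ε) : ∃ N : ℕ, ∀ n : ℕ, N ≤ n → (L - ε) * (n.choose k : ℝ) ≤ (f n : ℝ) := by
  have h1 : ∀ᶠ n : ℕ in atTop, L - ε < (f n : ℝ) / ((n.choose k : ℕ) : ℝ) :=
    h.eventually (lt_mem_nhds (by linarith))
  obtain ⟨N, hN⟩ := eventually_atTop.1 h1
  refine ⟨max N k, fun n hn => ?_⟩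
  have h2 := hN n (le_trans (le_max_left _ _) hn)
  have h3 : (0 : ℝ) < ((n.choose k : ℕ) : ℝ) := by
    exact_mod_cast Nat.choose_pos (le_trans (le_max_right _ _) hn)
  rw [lt_div_iff₀ h3] at h2
  exact h2.le

/-- IR-LIMF -/
theorem limf : S_LIMF := by
  intro hLIM k hk x hx hcase ε hε
  have hk0 : (0 : ℝ) < k := by
    have : (2 : ℝ) ≤ k := by exact_mod_cast hk
    linarith
  have hk2 : (2 : ℝ) ≤ k := by exact_mod_cast hk
  rcases hcase with hxk | ⟨hkx, hU⟩
  · -- x = 1/k
    have hkx1 : (k : ℝ) * x = 1 := by rw [hxk]; field_simp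
    have hx1 : x ≤ 1 := by nlinarith
    have hmax : max (1 - (1 - x) ^ k) (((k : ℝ) * x) ^ k) = 1 := by
      rw [hkx1, one_pow]
      apply max_eq_right
      have : 0 ≤ (1 - x) ^ k := pow_nonneg (by linarith) k
      linarith
    rw [hmax]
    refine ⟨0, fun n _ => ⟨?_, ?_⟩⟩
    · intro F hF _
      have h1 : F.card ≤ n.choose k := by
        have h2 : F ⊆ (univ : Finset (Fin n)).powersetCard k := by
          intro e he
          exact mem_powersetCard.2 ⟨subset_univ _, hF e he⟩
        have h3 := card_le_card h2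
        rwa [card_powersetCard, card_univ, Fintype.card_fin] at h3
      have h4 : (F.card : ℝ) ≤ (n.choose k : ℝ) := by exact_mod_cast h1
      have h5 : (0 : ℝ) ≤ (n.choose k : ℝ) := Nat.cast_nonneg _
      nlinarith
    · refine ⟨(univ : Finset (Fin n)).powersetCard k, fun e he => (mem_powersetCard.1 he).2, ?_, ?_⟩
      · intro w _ hw2
        have h1 := frac_le ((univ : Finset (Fin n)).powersetCard k) univ
          (fun e he => (mem_powersetCard.1 he).2) (fun e _ => subset_univ e) w hw2
        rw [card_univ, Fintype.card_fin] at h1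
        have h2 : (n : ℝ) = k * (x * n) := by
          rw [← mul_assoc, hkx1, one_mul]
        rw [h2] at h1
        have h3 := le_of_mul_le_mul_left h1 hk0
        linarith
      · rw [card_powersetCard, card_univ, Fintype.card_fin]
        have h5 : (0 : ℝ) ≤ (n.choose k : ℝ) := Nat.cast_nonneg _
        nlinarith
  · -- k x < 1
    have hx1 : x < 1 := by nlinarith
    obtain ⟨hL1, hL2⟩ := hLIM k (by omega) x hx hx1.le
    have hL2 := hL2 hkx
    obtain ⟨η, hη, n0, hn0⟩ := hU ε hε
    obtain ⟨N1, hN1⟩ := ev_lower (f := fun n : ℕ =>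
      n.choose k - (n - ⌊x * (n : ℝ)⌋₊).choose k) hL1 hε
    obtain ⟨N2, hN2⟩ := ev_lower (f := fun n : ℕ =>
      (k * (⌊x * (n : ℝ)⌋₊ + 1) - 1).choose k) hL2 hε
    obtain ⟨N3, hN3⟩ := exists_nat_ge (2 / η)
    obtain ⟨N4, hN4⟩ := exists_nat_ge (k / (1 - k * x))
    refine ⟨max n0 (max N1 (max N2 (max N3 N4))), fun n hn => ?_⟩
    simp only [max_le_iff] at hn
    obtain ⟨hn0', hn1, hn2, hn3, hn4⟩ := hn
    have hnn : (0 : ℝ) ≤ n := Nat.cast_nonneg n
    have h3 : 2 ≤ η * n := by
      have : 2 / η ≤ n := hN3.trans (by exact_mod_cast hn3)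
      rw [div_le_iff₀ hη] at this
      linarith
    have h4 : (k : ℝ) ≤ (1 - k * x) * n := by
      have : (k : ℝ) / (1 - k * x) ≤ n := hN4.trans (by exact_mod_cast hn4)
      rw [div_le_iff₀ (by linarith)] at this
      linarith
    constructor
    · intro F hF hw
      by_contra hcon
      push Not at hcon
      obtain ⟨M, hMF, hM, hMc⟩ := hn0 n hn0' F hF hcon.le
      obtain ⟨w, hw1, hw2, hw3⟩ := R3.frac_of_matching F M hMF
        (fun e he e' he' hne => hM e he e' he' hne)
      have hs := hw (fun e => if e ∈ F then w e else 0)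
        (fun e => by
          by_cases h : e ∈ F
          · simp only [h, if_true]; exact (hw1 e h).1
          · simp [h])
        (fun v => by
          have : ∑ e ∈ F.filter (fun e => v ∈ e), (if e ∈ F then w e else 0) =
              ∑ e ∈ F.filter (fun e => v ∈ e), w e := by
            refine Finset.sum_congr rfl (fun e he => ?_)
            rw [if_pos (mem_filter.1 he).1]
          rw [this]
          exact hw2 v)
      have h5 : ∑ e ∈ F, (if e ∈ F then w e else 0) = ∑ e ∈ F, w e :=
        Finset.sum_congr rfl (fun e he => if_pos he)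
      rw [h5, hw3, hMc] at hs
      have h6 : (x + η) * n < (⌊(x + η) * n⌋₊ : ℝ) + 1 := Nat.lt_floor_add_one _
      nlinarith
    · set s : ℕ := ⌊x * (n : ℝ)⌋₊ with hs
      have hsx : (s : ℝ) ≤ x * n := Nat.floor_le (by positivity)
      have hsn : s ≤ n := by
        have : (s : ℝ) ≤ n := by nlinarith
        exact_mod_cast this
      have hTn : k * (s + 1) - 1 ≤ n := by
        have h5 : (k : ℝ) * (s + 1) ≤ n := by nlinarith
        have h6 : k * (s + 1) ≤ n := by exact_mod_cast h5
        omega
      rcases le_total (1 - (1 - x) ^ k) (((k : ℝ) * x) ^ k) with hle | hle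
      · -- second construction
        rw [max_eq_right hle]
        obtain ⟨T, -, hTc⟩ := Finset.exists_subset_card_eq (s := (univ : Finset (Fin n)))
          (n := k * (s + 1) - 1) (by rw [card_univ, Fintype.card_fin]; exact hTn)
        refine ⟨T.powersetCard k, fun e he => (mem_powersetCard.1 he).2, ?_, ?_⟩
        · intro w _ hw2
          have h1 := frac_le (T.powersetCard k) T
            (fun e he => (mem_powersetCard.1 he).2) (fun e he => (mem_powersetCard.1 he).1) w hw2
          rw [hTc] at h1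
          have h2 : ((k * (s + 1) - 1 : ℕ) : ℝ) < k * ((s : ℝ) + 1) := by
            have h7 : 1 ≤ k * (s + 1) := Nat.mul_pos (by omega) (by omega)
            rw [Nat.cast_sub h7]
            push_cast
            linarith
          have h8 : (k : ℝ) * ∑ e ∈ T.powersetCard k, w e < k * ((s : ℝ) + 1) :=
            lt_of_le_of_lt h1 h2
          have h9 := lt_of_mul_lt_mul_left h8 hk0.le
          linarith
        · rw [card_powersetCard, hTc]
          exact hN2 n hn2
      · rw [max_eq_left hle]
        obtain ⟨S, -, hSc⟩ := Finset.exists_subset_card_eq (s := (univ : Finset (Fin n))) (n := s)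
          (by rw [card_univ, Fintype.card_fin]; exact hsn)
        refine ⟨R3.meet k S, fun e he => (mem_powersetCard.1 (mem_filter.1 he).1).2, ?_, ?_⟩
        · intro w hw1 hw2
          have := R3.total_le (R3.meet k S) S (fun e he => (mem_filter.1 he).2) w
            (fun e _ => hw1 e) hw2
          rw [hSc] at this
          linarith
        · rw [R3.meet_card, hSc]
          exact hN1 n hn1

end Pool.Agent.W198.IR.Limf

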